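import Pool.Agent.V5helper90.ZL.Stm2
import Pool.Agent.V5helper29.ZL.GRP

/-!
# The group of all Hodge classes from the blocks, general form (job GRP2, adapted from GRP of helper29)
-/

set_option autoImplicit false

namespace Pool.Agent.V5helper65.ZL

open Matrix Pool.Agent.N996.BP Pool.Agent.N996.FP
open Pool.Agent.V5helper90.ZL Pool.Agent.V5helper29.ZL
open Pool.Agent.V5helper89.KZ.KD (B U Wm B_apply QQ B_of_fixQ)

theorem t_GRP2 (hSO : S_SO) (hGL : S_GL) (hROT : S_ROT) (hDIL : S_DIL) : S_GRP' := by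
  intro ι _ _ H τ C _ _ P bar hB g hgal hgQ hPg hdet
  have hQ : (cQ H.Qr)ᵀ = cQ H.Qr := by
    ext i j
    rw [Matrix.transpose_apply, cQ, Matrix.map_apply, Matrix.map_apply, hB.sym]
  have hd := isUnit_Q H
  have hgP : ∀ c, g * P c = P c * g := fun c => (hPg c).symm
  have hE : EE (∑ c, P c) g = g := by
    have h0 : ∀ i, EE (∑ c, P c) g *ᵥ Pi.single i 1 = g *ᵥ Pi.single i 1 := by
      intro i
      rw [EE, Matrix.add_mulVec, Matrix.sub_mulVec, Matrix.one_mulVec, ← Matrix.mulVec_mulVec]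
      by_cases hi : τ i
      · rw [hB.sum _ (Pool.Agent.V5helper89.KZ.KD.single_U hi), sub_self, zero_add]
      · have h1 : (∑ c, P c) *ᵥ Pi.single i 1 = 0 := by
          rw [Matrix.sum_mulVec]
          exact Finset.sum_eq_zero fun c _ => hB.alg c i hi
        rw [h1, sub_zero, Matrix.mulVec_zero, add_zero, hgal i hi]
    ext i j
    have h1 := congrFun (h0 j) i
    rwa [Matrix.mulVec_single_one, Matrix.mulVec_single_one, Matrix.col_apply,
      Matrix.col_apply] at h1
  rw [← hE]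
  have hiso : ∀ g ∈ So H, gᵀ * cQ H.Qr * g = cQ H.Qr := fun g hg => tr_of_fixes (hg _)
  refine EE_all P bar (So H) g hB.orth hB.bar_bar hgP (fun c hc => ?_) (fun c hc => ?_)
  · have hadj := hB.adj c
    rw [hc] at hadj
    refine hSO ι (cQ H.Qr) (P c) (So H) hQ hd (hB.idem c) hadj hiso
      (fun g hg => So_ex_inv hg) ?_ _ (EE_iso hQ (hB.idem c) hadj (hgP c) hgQ) (hdet c hc) ?_
    · intro v v' hv hv' h1 h2 h3
      exact hROT ι H hB.sym v v' (hB.lie c v v' hv (by rwa [hc])) h1 h2 h3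
    · intro w hw
      rw [EE, Matrix.add_mulVec, Matrix.sub_mulVec, Matrix.one_mulVec, ← Matrix.mulVec_mulVec, hw,
        Matrix.mulVec_zero, sub_zero, add_zero]
  · have hadj := hB.adj c
    have hadj' := hB.adj (bar c)
    rw [hB.bar_bar] at hadj'
    have ho1 := hB.orth c (bar c) (Ne.symm hc)
    have ho2 := hB.orth (bar c) c hc
    have hid : (P c + P (bar c)) * (P c + P (bar c)) = P c + P (bar c) := by
      rw [Matrix.add_mul, Matrix.mul_add, Matrix.mul_add, hB.idem, hB.idem, ho1, ho2, add_zero,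
        zero_add]
    have hsa : (P c + P (bar c))ᵀ * cQ H.Qr = cQ H.Qr * (P c + P (bar c)) := by
      rw [Matrix.transpose_add, Matrix.add_mul, hadj, hadj', Matrix.mul_add, add_comm]
    have hgPP : g * (P c + P (bar c)) = (P c + P (bar c)) * g := by
      rw [Matrix.mul_add, Matrix.add_mul, hgP, hgP]
    refine hGL ι (cQ H.Qr) (P c) (P (bar c)) (So H) hQ hd (hB.idem c) (hB.idem _) ho1 ho2 hadj ?_ _
      (EE_iso hQ hid hsa hgPP hgQ) ?_ ?_ ?_
    · intro u v hu hv huv t ht
      refine hDIL ι H hB.sym u v (hB.lie c u v hu hv) ?_ ?_ huv t ht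
      · rw [← hu, bil_mulVec hadj, Matrix.mulVec_mulVec, ho2, Matrix.zero_mulVec]
        simp [bil]
      · rw [← hv, bil_mulVec hadj', Matrix.mulVec_mulVec, ho1, Matrix.zero_mulVec]
        simp [bil]
    · exact EE_comm (by rw [Matrix.mul_add, Matrix.add_mul, ho1, ho2]) (hgP c)
    · exact EE_comm (by rw [Matrix.mul_add, Matrix.add_mul, ho1, ho2]) (hgP (bar c))
    · intro w hw hw'
      rw [EE, Matrix.add_mulVec, Matrix.sub_mulVec, Matrix.one_mulVec, ← Matrix.mulVec_mulVec,
        Matrix.add_mulVec, hw, hw', add_zero, Matrix.mulVec_zero, sub_zero, add_zero]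

end Pool.Agent.V5helper65.ZL
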